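import Pool.Agent.Helper5.FRC.Defs

/-!
# Project FRC (MP_79b960_co), packet SLIDE
-/

set_option autoImplicit false

namespace Pool.Agent.Helper81.FRC.SLIDE

open Finset
open Pool.Agent.Helper5.FRC

variable {V : Type} [DecidableEq V]

/-- Closed under both maps. -/
def Cl (b q : V → V) (E : Finset V) : Prop := ∀ x ∈ E, q x ∈ E ∧ b x ∈ E

open Classical in
/-- The smallest closed set which contains `x`. -/
noncomputable def Dm (C : Finset V) (b q : V → V) (x : V) : Finset V :=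
  C.filter fun y => ∀ E ⊆ C, Cl b q E → x ∈ E → y ∈ E

variable {C : Finset V} {b q : V → V} {n : Equiv.Perm V} {p x y : V} {E F : Finset V}

theorem mem_Dm : y ∈ Dm C b q x ↔ y ∈ C ∧ ∀ E ⊆ C, Cl b q E → x ∈ E → y ∈ E := by
  classical
  unfold Dm
  exact mem_filter

theorem Dm_sub : Dm C b q x ⊆ C := fun _ hy => (mem_Dm.1 hy).1

theorem self_mem (hx : x ∈ C) : x ∈ Dm C b q x := mem_Dm.2 ⟨hx, fun _ _ _ h => h⟩

theorem Dm_le (hE : E ⊆ C) (h : Cl b q E) (hx : x ∈ E) : Dm C b q x ⊆ E :=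
  fun _ hy => (mem_Dm.1 hy).2 E hE h hx

theorem Cl_Dm (hb : ∀ x ∈ C, b x ∈ C ∧ b (b x) = x) (hq : Npr n C p q) : Cl b q (Dm C b q x) := by
  intro y hy
  obtain ⟨h1, h2⟩ := mem_Dm.1 hy
  exact ⟨mem_Dm.2 ⟨(hq y h1).1, fun E hE h hx => (h y (h2 E hE h hx)).1⟩,
    mem_Dm.2 ⟨(hb y h1).1, fun E hE h hx => (h y (h2 E hE h hx)).2⟩⟩

theorem Cl_compl (hb : ∀ x ∈ C, b x ∈ C ∧ b (b x) = x) (hq : Npr n C p q) (h : Cl b q E) :
    Cl b q (C \ E) := by
  intro x hx
  rw [mem_sdiff] at hx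
  obtain ⟨h1, h2⟩ := hx
  refine ⟨mem_sdiff.2 ⟨(hq x h1).1, fun h3 => h2 ?_⟩, mem_sdiff.2 ⟨(hb x h1).1, fun h3 => h2 ?_⟩⟩
  · rw [← (hq x h1).2.1]
    exact (h _ h3).1
  · rw [← (hb x h1).2]
    exact (h _ h3).2

theorem Cl_union (h : Cl b q E) (h' : Cl b q F) : Cl b q (E ∪ F) := by
  intro x hx
  rcases mem_union.1 hx with h1 | h1
  · exact ⟨mem_union_left _ (h x h1).1, mem_union_left _ (h x h1).2⟩
  · exact ⟨mem_union_right _ (h' x h1).1, mem_union_right _ (h' x h1).2⟩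

theorem Dm_min (hb : ∀ x ∈ C, b x ∈ C ∧ b (b x) = x) (hq : Npr n C p q) (hx : x ∈ C)
    (hE : E ⊆ Dm C b q x) (hne : E.Nonempty) (h : Cl b q E) : E = Dm C b q x := by
  refine Subset.antisymm hE ?_
  by_cases hxE : x ∈ E
  · exact Dm_le (hE.trans Dm_sub) h hxE
  · exfalso
    have h1 := Dm_le (sdiff_subset : C \ E ⊆ C) (Cl_compl hb hq h) (mem_sdiff.2 ⟨hx, hxE⟩)
    obtain ⟨y, hy⟩ := hne
    exact (mem_sdiff.1 (h1 (hE hy))).2 hy

theorem Dm_eq (hb : ∀ x ∈ C, b x ∈ C ∧ b (b x) = x) (hq : Npr n C p q) (hx : x ∈ C)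
    (hy : y ∈ Dm C b q x) : Dm C b q y = Dm C b q x :=
  Dm_min hb hq hx (Dm_le Dm_sub (Cl_Dm hb hq) hy) ⟨y, self_mem (Dm_sub hy)⟩ (Cl_Dm hb hq)

/-- The fixed points. -/
def Fx (b : V → V) (E : Finset V) : Finset V := E.filter fun x => b x = x

theorem mem_Fx : x ∈ Fx b E ↔ x ∈ E ∧ b x = x := by
  unfold Fx
  rw [mem_filter]

theorem Fx_union : Fx b (E ∪ F) = Fx b E ∪ Fx b F := filter_union _ _ _

theorem path' [Fintype V] (hP : PathStmt) (hb : ∀ x ∈ C, b x ∈ C ∧ b (b x) = x) (hq : Npr n C p q)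
    (hx : x ∈ C) : (Fx q (Dm C b q x)).card + (Fx b (Dm C b q x)).card = 0 ∨
      (Fx q (Dm C b q x)).card + (Fx b (Dm C b q x)).card = 2 := by
  refine hP V (Dm C b q x) q b (fun y hy => ⟨(Cl_Dm hb hq y hy).1, (hq y (Dm_sub hy)).2.1⟩)
    (fun y hy => ⟨(Cl_Dm hb hq y hy).2, (hb y (Dm_sub hy)).2⟩) ?_
  intro E hE hne h
  exact Dm_min hb hq hx hE hne h

theorem card_p [Fintype V] (hP : PathStmt) (hb : ∀ x ∈ C, b x ∈ C ∧ b (b x) = x) (hq : Npr n C p q)
    (hp : p ∈ C) : ∃ k, Fx b (Dm C b q p) = {k} := by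
  have h1 : Fx q (Dm C b q p) = {p} := by
    ext y
    rw [mem_Fx, mem_singleton]
    constructor
    · rintro ⟨h1, h2⟩
      exact ((hq y (Dm_sub h1)).2.2.2).1 h2
    · rintro rfl
      exact ⟨self_mem hp, ((hq y hp).2.2.2).2 rfl⟩
  rw [← card_eq_one]
  rcases path' hP hb hq hp with h | h
  · rw [h1, card_singleton] at h
    omega
  · rw [h1, card_singleton] at h
    omega

theorem card_o [Fintype V] (hP : PathStmt) (hb : ∀ x ∈ C, b x ∈ C ∧ b (b x) = x) (hq : Npr n C p q)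
    (hx : x ∈ C) (hp : p ∉ Dm C b q x) (hbx : b x = x) :
    ∃ v, v ≠ x ∧ Fx b (Dm C b q x) = {x, v} := by
  have h1 : Fx q (Dm C b q x) = ∅ := by
    rw [eq_empty_iff_forall_notMem]
    intro y hy
    rw [mem_Fx] at hy
    have h2 := ((hq y (Dm_sub hy.1)).2.2.2).1 hy.2
    rw [h2] at hy
    exact hp hy.1
  have h2 : x ∈ Fx b (Dm C b q x) := mem_Fx.2 ⟨self_mem hx, hbx⟩
  have h3 : (Fx b (Dm C b q x)).card = 2 := by
    rcases path' hP hb hq hx with h | h
    · rw [h1, card_empty, zero_add, card_eq_zero] at h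
      rw [h] at h2
      exact absurd h2 (notMem_empty _)
    · rw [h1, card_empty, zero_add] at h
      exact h
  obtain ⟨u, v, huv, h4⟩ := card_eq_two.1 h3
  rw [h4] at h2 ⊢
  rcases mem_insert.1 h2 with rfl | h5
  · exact ⟨v, huv.symm, rfl⟩
  · rw [mem_singleton] at h5
    subst h5
    exact ⟨u, huv, pair_comm _ _⟩

theorem fin3 : ∀ a b c i : Fin 3, a ≠ b → a ≠ c → b ≠ c → i = a ∨ i = b ∨ i = c := by decide

theorem three {Y : Finset V} {col : V → Fin 3} {k u v : V} (h : Fx b Y = {k, u, v})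
    (h1 : col k ≠ col u) (h2 : col k ≠ col v) (h3 : col u ≠ col v) (i : Fin 3) :
    (Y.filter fun x => b x = x ∧ col x = i).card = 1 := by
  have h4 : (Y.filter fun x => b x = x ∧ col x = i) = ({k, u, v} : Finset V).filter
      fun x => col x = i := by
    rw [← h]
    unfold Fx
    rw [filter_filter]
  rw [h4, card_eq_one]
  rcases fin3 _ _ _ i h1 h2 h3 with rfl | rfl | rfl
  · refine ⟨k, ?_⟩
    ext z
    simp only [mem_filter, mem_insert, mem_singleton]
    constructor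
    · rintro ⟨rfl | rfl | rfl, h5⟩
      · rfl
      · exact absurd h5.symm h1
      · exact absurd h5.symm h2
    · rintro rfl
      exact ⟨Or.inl rfl, rfl⟩
  · refine ⟨u, ?_⟩
    ext z
    simp only [mem_filter, mem_insert, mem_singleton]
    constructor
    · rintro ⟨rfl | rfl | rfl, h5⟩
      · exact absurd h5 h1
      · rfl
      · exact absurd h5.symm h3
    · rintro rfl
      exact ⟨Or.inr (Or.inl rfl), rfl⟩
  · refine ⟨v, ?_⟩
    ext z
    simp only [mem_filter, mem_insert, mem_singleton]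
    constructor
    · rintro ⟨rfl | rfl | rfl, h5⟩
      · exact absurd h5 h2
      · exact absurd h5 h3
      · rfl
    · rintro rfl
      exact ⟨Or.inr (Or.inr rfl), rfl⟩

/-- The conclusion. -/
def Good (n : Equiv.Perm V) (C : Finset V) (b : V → V) (col : V → Fin 3) : Prop :=
  ∃ p ∈ C, ∃ (q : V → V) (Y : Finset V), Y ⊆ C ∧ Npr n C p q ∧ p ∈ Y ∧
    (∀ x ∈ Y, q x ∈ Y ∧ b x ∈ Y) ∧ ∀ i, (Y.filter fun x => b x = x ∧ col x = i).card = 1

/-- The property `(*)`. -/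
theorem star [Fintype V] (hP : PathStmt) {col : V → Fin 3} (hb : ∀ x ∈ C, b x ∈ C ∧ b (b x) = x)
    (hodd : ∀ i, Odd (C.filter fun x => b x = x ∧ col x = i).card)
    (hfail : ¬ Good n C b col) (hp : p ∈ C) (hq : Npr n C p q) {k : V}
    (hk : Fx b (Dm C b q p) = {k}) {e : Fin 3} (he : e ≠ col k) :
    ∃ D ⊆ C, Cl b q D ∧ p ∉ D ∧ ∃ u v, u ≠ v ∧ Fx b D = {u, v} ∧ col u = e ∧ col v = col k := by
  classical
  have hpu : ∀ u ∈ C, b u = u → col u = e → p ∉ Dm C b q u := by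
    intro u hu hbu hcu h1
    have h2 := Dm_eq hb hq hu h1
    have h3 : u ∈ Fx b (Dm C b q p) := by
      rw [h2]
      exact mem_Fx.2 ⟨self_mem hu, hbu⟩
    rw [hk, mem_singleton] at h3
    rw [h3] at hcu
    exact he hcu.symm
  have hex : ∀ u ∈ C.filter (fun x => b x = x ∧ col x = e),
      ∃ v, v ≠ u ∧ Fx b (Dm C b q u) = {u, v} := by
    intro u hu
    rw [mem_filter] at hu
    exact card_o hP hb hq hu.1 (hpu u hu.1 hu.2.1 hu.2.2) hu.2.1
  choose! g hg1 hg2 using hex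
  have hgD : ∀ u ∈ C.filter (fun x => b x = x ∧ col x = e), g u ∈ Dm C b q u ∧ b (g u) = g u := by
    intro u hu
    have h1 : g u ∈ Fx b (Dm C b q u) := by
      rw [hg2 u hu]
      exact mem_insert_of_mem (mem_singleton_self _)
    exact mem_Fx.1 h1
  obtain ⟨u, hu, hcu⟩ : ∃ u ∈ C.filter (fun x => b x = x ∧ col x = e), col (g u) ≠ e := by
    by_contra hcon
    push Not at hcon
    have hmem : ∀ u ∈ C.filter (fun x => b x = x ∧ col x = e),
        g u ∈ C.filter (fun x => b x = x ∧ col x = e) := by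
      intro u hu
      obtain ⟨h1, h2⟩ := hgD u hu
      exact mem_filter.2 ⟨Dm_sub h1, h2, hcon u hu⟩
    have h0 : ∑ u ∈ C.filter (fun x => b x = x ∧ col x = e), (1 : ZMod 2) = 0 := by
      refine sum_involution (fun u _ => g u) (fun u _ => by decide) (fun u hu _ => hg1 u hu)
        (fun u hu => hmem u hu) (fun u hu => ?_)
      have h1 := hg2 (g u) (hmem u hu)
      rw [Dm_eq hb hq (mem_filter.1 hu).1 (hgD u hu).1, hg2 u hu] at h1
      have h2 : u ∈ ({g u, g (g u)} : Finset V) := by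
        rw [← h1]
        exact mem_insert_self _ _
      rcases mem_insert.1 h2 with h3 | h3
      · exact absurd h3.symm (hg1 u hu)
      · exact (mem_singleton.1 h3).symm
    rw [sum_const, nsmul_eq_mul, mul_one] at h0
    have h1 := (ZMod.natCast_eq_zero_iff_even).1 h0
    have h2 := hodd e
    rw [← Nat.not_even_iff_odd] at h2
    exact h2 h1
  have hu' := mem_filter.1 hu
  have hpD := hpu u hu'.1 hu'.2.1 hu'.2.2
  by_cases hc : col (g u) = col k
  · exact ⟨Dm C b q u, Dm_sub, Cl_Dm hb hq, hpD, u, g u, (hg1 u hu).symm, hg2 u hu, hu'.2.2, hc⟩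
  · exfalso
    refine hfail ⟨p, hp, q, Dm C b q p ∪ Dm C b q u, union_subset Dm_sub Dm_sub, hq,
      mem_union_left _ (self_mem hp), Cl_union (Cl_Dm hb hq) (Cl_Dm hb hq), ?_⟩
    refine three (k := k) (u := u) (v := g u) ?_ ?_ (fun h => hc h.symm) ?_
    · rw [Fx_union, hk, hg2 u hu]
      rfl
    · rw [hu'.2.2]
      exact he.symm
    · rw [hu'.2.2]
      exact hcu.symm

theorem main [Fintype V] (hS : ShiftStmt) (hP : PathStmt) (hC : Cir n C) (hCo : Odd C.card)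
    (hC1 : 1 < C.card) {col : V → Fin 3} (hb : ∀ x ∈ C, b x ∈ C ∧ b (b x) = x)
    (hodd : ∀ i, Odd (C.filter fun x => b x = x ∧ col x = i).card)
    (hfail : ¬ Good n C b col) (hp : p ∈ C) (hq : Npr n C p q) {k : V}
    (hk : Fx b (Dm C b q p) = {k}) :
    ∃ q' : V → V, Npr n C (n (n p)) q' ∧ ∃ k', Fx b (Dm C b q' (n (n p))) = {k'} ∧
      col k' = col k := by
  obtain ⟨q1, q2, q3, q4, q5⟩ := hS V n C hC hCo hC1 p hp q hq
  obtain ⟨s, hs⟩ : ∃ s, s = n p := ⟨_, rfl⟩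
  obtain ⟨r, hr⟩ : ∃ r, r = n (n p) := ⟨_, rfl⟩
  obtain ⟨q', hq'⟩ : ∃ q' : V → V, q' = fun x => if x = p then n p else if x = n p then p
      else if x = n (n p) then n (n p) else q x := ⟨_, rfl⟩
  rw [← hq', ← hr] at q5
  rw [← hr, ← hs] at q1 q2
  rw [← hs] at q3
  rw [← hr] at q4
  have hsC : s ∈ C := by rw [hs]; exact hC.2.1 p hp
  have hrC : r ∈ C := by rw [hr]; exact hC.2.1 _ (hC.2.1 p hp)
  have e1 : q' p = s := by
    rw [hq', hs]
    simp
  have e2 : q' s = p := by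
    rw [hq']
    simp only
    rw [if_neg q3, ← hs, if_pos rfl]
  have e3 : q' r = r := ((q5 r hrC).2.2.2).2 rfl
  have e4 : ∀ x, x ≠ p → x ≠ s → x ≠ r → q' x = q x := by
    intro x h1 h2 h3
    rw [hq']
    simp only
    rw [if_neg h1, ← hs, if_neg h2, hs, ← hr, if_neg h3]
  rw [← hr]
  refine ⟨q', q5, ?_⟩
  obtain ⟨k', hk'⟩ := card_p hP hb q5 hrC
  refine ⟨k', hk', ?_⟩
  by_contra hne
  -- the third colour
  obtain ⟨e, he1, he2⟩ : ∃ e : Fin 3, e ≠ col k ∧ e ≠ col k' := by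
    have : ∀ a b : Fin 3, ∃ e : Fin 3, e ≠ a ∧ e ≠ b := by decide
    exact this _ _
  obtain ⟨D, hD, hDc, hpD, u, v, huv, hF, hcu, hcv⟩ := star hP hb hodd hfail hp hq hk he1
  have hk'm : k' ∈ Fx b (Dm C b q' r) := by
    rw [hk']
    exact mem_singleton_self _
  by_cases hsD : s ∈ D
  · -- `D ∪ D(p)`
    have hrD : r ∈ D := by
      rw [← q1]
      exact (hDc s hsD).1
    have hcl : Cl b q' (D ∪ Dm C b q p) := by
      have h0 := Cl_union hDc (Cl_Dm (x := p) hb hq)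
      intro x hx
      refine ⟨?_, (h0 x hx).2⟩
      by_cases x1 : x = p
      · rw [x1, e1]
        exact mem_union_left _ hsD
      by_cases x2 : x = s
      · rw [x2, e2]
        exact mem_union_right _ (self_mem hp)
      by_cases x3 : x = r
      · rw [x3, e3]
        exact mem_union_left _ hrD
      rw [e4 x x1 x2 x3]
      exact (h0 x hx).1
    have hsub := Dm_le (union_subset hD Dm_sub) hcl (mem_union_left _ hrD)
    have h1 : k' ∈ Fx b (D ∪ Dm C b q p) :=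
      mem_Fx.2 ⟨hsub (mem_Fx.1 hk'm).1, (mem_Fx.1 hk'm).2⟩
    rw [Fx_union, hF, hk] at h1
    simp only [mem_union, mem_insert, mem_singleton] at h1
    rcases h1 with (h1 | h1) | h1
    · rw [h1] at he2
      exact he2 hcu.symm
    · rw [h1] at hne
      exact hne hcv
    · rw [h1] at hne
      exact hne rfl
  · -- `D ∪ D'(r)`
    have hrD : r ∉ D := by
      intro h1
      apply hsD
      rw [← q2]
      exact (hDc r h1).1
    have hcl : Cl b q' D := by
      intro x hx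
      refine ⟨?_, (hDc x hx).2⟩
      rw [e4 x (fun h => hpD (h ▸ hx)) (fun h => hsD (h ▸ hx)) (fun h => hrD (h ▸ hx))]
      exact (hDc x hx).1
    refine hfail ⟨r, hrC, q', D ∪ Dm C b q' r, union_subset hD Dm_sub, q5,
      mem_union_right _ (self_mem hrC), Cl_union hcl (Cl_Dm hb q5), ?_⟩
    refine three (k := u) (u := v) (v := k') ?_ ?_ ?_ ?_
    · rw [Fx_union, hF, hk']
      ext z
      simp only [mem_union, mem_insert, mem_singleton]
      tauto
    · rw [hcu, hcv]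
      exact he1
    · rw [hcu]
      exact he2
    · rw [hcv]
      exact fun h => hne h.symm

theorem Dm_fix (hq : Npr n C p q) (hp : p ∈ C)
    (hbp : b p = p) : Fx b (Dm C b q p) = {p} := by
  have h1 : Dm C b q p = {p} := by
    refine Subset.antisymm (Dm_le (singleton_subset_iff.2 hp) ?_ (mem_singleton_self p))
      (singleton_subset_iff.2 (self_mem hp))
    intro x hx
    rw [mem_singleton] at hx
    subst hx
    exact ⟨mem_singleton.2 (((hq x hp).2.2.2).2 rfl), mem_singleton.2 hbp⟩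
  rw [h1]
  ext x
  rw [mem_Fx, mem_singleton]
  constructor
  · exact fun h => h.1
  · rintro rfl
    exact ⟨rfl, hbp⟩

theorem t (hN : NprStmt) (hS : ShiftStmt) (hT : TwistStmt) (hP : PathStmt) : SlideStmt := by
  classical
  intro V _ _ n C hC hCo b col hb hodd
  by_contra hfail
  have hfail' : ¬ Good n C b col := hfail
  have hpt : ∀ i : Fin 3, ∃ x ∈ C, b x = x ∧ col x = i := by
    intro i
    have h1 : 0 < (C.filter fun x => b x = x ∧ col x = i).card := (hodd i).pos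
    obtain ⟨x, hx⟩ := card_pos.1 h1
    rw [mem_filter] at hx
    exact ⟨x, hx⟩
  obtain ⟨x0, hx0, hb0, hc0⟩ := hpt 0
  obtain ⟨x1, hx1, hb1, hc1⟩ := hpt 1
  have hC1 : 1 < C.card := by
    refine one_lt_card.2 ⟨x0, hx0, x1, hx1, fun h => ?_⟩
    rw [h, hc1] at hc0
    exact absurd hc0 (by decide)
  set E : Finset V := C.filter fun x => ∃ q, Npr n C x q ∧ ∃ k, Fx b (Dm C b q x) = {k} ∧
    col k = 0 with hE
  have hEC : E = C := by
    refine hT V n C hC hCo E (filter_subset _ _) ?_ ?_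
    · obtain ⟨q, hq⟩ := hN V n C hC hCo x0 hx0
      exact ⟨x0, mem_filter.2 ⟨hx0, q, hq, x0, Dm_fix hq hx0 hb0, hc0⟩⟩
    · intro x hx
      rw [hE, mem_filter] at hx ⊢
      obtain ⟨hxC, q, hq, k, hk, hck⟩ := hx
      obtain ⟨q', hq', k', hk', hck'⟩ := main hS hP hC hCo hC1 hb hodd hfail' hxC hq hk
      exact ⟨hC.2.1 _ (hC.2.1 x hxC), q', hq', k', hk', hck'.trans hck⟩
  have h1 : x1 ∈ E := by
    rw [hEC]
    exact hx1
  rw [hE, mem_filter] at h1
  obtain ⟨-, q, hq, k, hk, hck⟩ := h1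
  rw [Dm_fix hq hx1 hb1] at hk
  have h2 := singleton_injective hk
  rw [← h2, hc1] at hck
  exact absurd hck (by decide)

end Pool.Agent.Helper81.FRC.SLIDE
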